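import Pool.Agent.Helper24.MD.Final

set_option autoImplicit false

/-! # MP_120218: every finite set, linear exponent for few factors and many summands -/

namespace Pool.Agent.Helper82.EB

open Finset

/-- the `n`-fold sumset -/
def sk (n : ℕ) (B : Finset ℤ) : Finset ℤ :=
  (Fintype.piFinset (fun _ : Fin n => B)).image (fun f : Fin n → ℤ => ∑ i, f i)

theorem sk_nonempty (n : ℕ) {B : Finset ℤ} (hB : B.Nonempty) : (sk n B).Nonempty := by
  unfold sk
  exact (Fintype.piFinset_nonempty.2 fun _ => hB).image _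

/-- `k (M B) ⊆ (k M) B` -/
theorem sk_sk (k M : ℕ) (B : Finset ℤ) : sk k (sk M B) ⊆ sk (k * M) B := by
  intro z hz
  unfold sk at hz
  obtain ⟨f, hf, rfl⟩ := Finset.mem_image.1 hz
  rw [Fintype.mem_piFinset] at hf
  have h1 : ∀ i, ∃ g : Fin M → ℤ, (∀ j, g j ∈ B) ∧ ∑ j, g j = f i := by
    intro i
    obtain ⟨g, hg, hgf⟩ := Finset.mem_image.1 (hf i)
    exact ⟨g, Fintype.mem_piFinset.1 hg, hgf⟩
  choose g hgB hgf using h1
  unfold sk
  refine Finset.mem_image.2 ⟨fun l => g (finProdFinEquiv.symm l).1 (finProdFinEquiv.symm l).2,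
    Fintype.mem_piFinset.2 fun l => hgB _ _, ?_⟩
  show ∑ l : Fin (k * M), g (finProdFinEquiv.symm l).1 (finProdFinEquiv.symm l).2 = ∑ i, f i
  rw [Equiv.sum_comp finProdFinEquiv.symm (fun q : Fin k × Fin M => g q.1 q.2),
    Fintype.sum_prod_type]
  exact Finset.sum_congr rfl fun i _ => hgf i

/-- the `M`-fold sumset contains a translate of `g B` for every `g ≤ M` -/
theorem dil_mem (M g : ℕ) (hg : g ≤ M) (B : Finset ℤ) (b0 : ℤ) (hb0 : b0 ∈ B) (b : ℤ)
    (hb : b ∈ B) : ((g : ℕ) : ℤ) * b + (((M - g : ℕ) : ℤ) * b0) ∈ sk M B := by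
  unfold sk
  refine Finset.mem_image.2 ⟨fun i : Fin M => if (i : ℕ) < g then b else b0, ?_, ?_⟩
  · rw [Fintype.mem_piFinset]
    intro i
    split_ifs
    · exact hb
    · exact hb0
  · have h1 : ∑ i : Fin M, (if (i : ℕ) < g then b else b0) =
        ∑ i ∈ Finset.range M, (if i < g then b else b0) :=
      Fin.sum_univ_eq_sum_range (fun i => if i < g then b else b0) M
    show ∑ i : Fin M, (if (i : ℕ) < g then b else b0) = _
    rw [h1, Finset.sum_ite, Finset.sum_const, Finset.sum_const, nsmul_eq_mul, nsmul_eq_mul]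
    have h2 : ((Finset.range M).filter (fun i => i < g)).card = g := by
      have h3 : (Finset.range M).filter (fun i => i < g) = Finset.range g := by
        ext i
        rw [Finset.mem_filter, Finset.mem_range, Finset.mem_range]
        omega
      rw [h3, Finset.card_range]
    have h4 : ((Finset.range M).filter (fun i => ¬ i < g)).card = M - g := by
      have h5 := Finset.card_filter_add_card_filter_not (s := Finset.range M) (fun i => i < g)
      rw [h2, Finset.card_range] at h5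
      omega
    rw [h2, h4]

/-- **Every finite set of integers**: `|KB| |B^k| ≥ c |B|^(k+1-ε)`, `K = K(k, ε)` -/
theorem everyB (k : ℕ) (hk : 1 ≤ k) (ε : ℝ) (hε : 0 < ε) : ∃ K : ℕ, ∃ c : ℝ, 0 < c ∧
    ∀ B : Finset ℤ, B.Nonempty → (0 : ℤ) ∉ B →
      c * (B.card : ℝ) ^ ((k : ℝ) + 1 - ε) ≤
        (((Fintype.piFinset (fun _ : Fin K => B)).image
          (fun f : Fin K → ℤ => ∑ i, f i)).card : ℝ) *
        (((Fintype.piFinset (fun _ : Fin k => B)).image
          (fun f : Fin k → ℤ => ∏ i, f i)).card : ℝ) := by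
  classical
  obtain ⟨m, c1, hc1, hmain⟩ := Pool.Agent.Helper24.MD.dilates k hk ε 0 hε
  -- the first `m` primes
  obtain ⟨G, hG⟩ : ∃ G : Finset ℕ, G = (Finset.range m).image (Nat.nth Nat.Prime) := ⟨_, rfl⟩
  have hGm : G.card = m := by
    rw [hG, Finset.card_image_of_injective _ (Nat.nth_injective Nat.infinite_setOf_prime),
      Finset.card_range]
  have hGp : ∀ g ∈ G, g.Prime := by
    intro g hg
    rw [hG] at hg
    obtain ⟨i, -, rfl⟩ := Finset.mem_image.1 hg
    exact Nat.prime_nth_prime i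
  obtain ⟨M, hM⟩ : ∃ M : ℕ, ∀ g ∈ G, g ≤ M := ⟨G.sup id, fun g hg => Finset.le_sup (f := id) hg⟩
  obtain ⟨V, hV⟩ : ∃ V : ℝ, V = ((Pool.Agent.Helper24.MD.badW G).card : ℝ) := ⟨_, rfl⟩
  have hV0 : 0 ≤ V := by rw [hV]; positivity
  obtain ⟨D, hD⟩ : ∃ D : ℝ, D = |(k : ℝ) + 1 - ε| * (V / c1) := ⟨_, rfl⟩
  have hD0 : 0 ≤ D := by rw [hD]; positivity
  refine ⟨k * M, min c1 (Real.exp (-D)), by positivity, ?_⟩
  intro B hB h0
  have hN : (0 : ℝ) < (B.card : ℝ) := by exact_mod_cast Finset.card_pos.2 hB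
  have hL : 0 ≤ Real.log (B.card : ℝ) := Real.log_natCast_nonneg _
  change _ ≤ ((sk (k * M) B).card : ℝ) * _
  have hsk1 : (1 : ℝ) ≤ ((sk (k * M) B).card : ℝ) := by
    exact_mod_cast Finset.card_pos.2 (sk_nonempty (k * M) hB)
  have hpk1 : (1 : ℝ) ≤ (((Fintype.piFinset (fun _ : Fin k => B)).image
          (fun f : Fin k → ℤ => ∏ i, f i)).card : ℝ) := by
    exact_mod_cast Finset.card_pos.2 ((Fintype.piFinset_nonempty.2 fun _ => hB).image _)
  by_cases hbig : V ≤ c1 * Real.log (B.card : ℝ)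
  · obtain ⟨b0, hb0⟩ := id hB
    have h1 := (hmain B hB h0 G hGm.ge ?_ ?_ (sk M B) ?_).1
    · change _ ≤ ((sk k (sk M B)).card : ℝ) * _ at h1
      have h2 : ((sk k (sk M B)).card : ℝ) ≤ ((sk (k * M) B).card : ℝ) := by
        exact_mod_cast Finset.card_le_card (sk_sk k M B)
      have h3 : min c1 (Real.exp (-D)) * (B.card : ℝ) ^ ((k : ℝ) + 1 - ε) ≤
          c1 * (B.card : ℝ) ^ ((k : ℝ) + 1 - ε) :=
        mul_le_mul_of_nonneg_right (min_le_left _ _) (by positivity)
      exact h3.trans (h1.trans (mul_le_mul_of_nonneg_right h2 (by positivity)))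
    · intro p hp _ g hg g' hg' hpg hpg'
      have h2 := (Nat.prime_dvd_prime_iff_eq hp (hGp g hg)).1 hpg
      have h3 := (Nat.prime_dvd_prime_iff_eq hp (hGp g' hg')).1 hpg'
      rw [← h2, h3]
    · refine le_trans ?_ hbig
      rw [hV]
      refine Nat.cast_le.2 ?_
      have h2 : {p : ℕ | p.Prime ∧
          (∃ b ∈ B, ∃ b' ∈ B, padicValInt p b ≠ padicValInt p b') ∧
          ∃ g ∈ G, ∃ g' ∈ G, g ≠ g' ∧ (p : ℤ) ∣ ((g : ℕ) : ℤ) - ((g' : ℕ) : ℤ)} ⊆
          ((Pool.Agent.Helper24.MD.badW G : Finset ℕ) : Set ℕ) := by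
        rintro p ⟨hp, -, g, hg, g', hg', hne, hd⟩
        rw [Finset.mem_coe]
        unfold Pool.Agent.Helper24.MD.badW
        rw [Finset.mem_biUnion]
        refine ⟨(g, g'), Finset.mk_mem_product hg hg', ?_⟩
        rw [Nat.mem_primeFactors]
        refine ⟨hp, Int.natCast_dvd.1 hd, ?_⟩
        intro hz
        rw [Int.natAbs_eq_zero, sub_eq_zero] at hz
        exact hne (by exact_mod_cast hz)
      have h3 := Set.ncard_le_ncard h2 (Finset.finite_toSet _)
      rwa [Set.ncard_coe_finset] at h3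
    · intro g hg
      exact ⟨((M - g : ℕ) : ℤ) * b0, fun b hb => dil_mem M g (hM g hg) B b0 hb0 b hb⟩
  · -- few elements
    push Not at hbig
    have h1 : Real.log (B.card : ℝ) ≤ V / c1 := by
      rw [le_div_iff₀ hc1]
      linarith
    have h2 : min c1 (Real.exp (-D)) * (B.card : ℝ) ^ ((k : ℝ) + 1 - ε) ≤ 1 := by
      refine Pool.Agent.Helper24.MD.rpow_le_of_log hN (by positivity) one_pos ?_
      have h3 : Real.log (min c1 (Real.exp (-D))) ≤ -D := by
        have := Real.log_le_log (by positivity) (min_le_right c1 (Real.exp (-D)))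
        rwa [Real.log_exp] at this
      have h4 : ((k : ℝ) + 1 - ε) * Real.log (B.card : ℝ) ≤
          |(k : ℝ) + 1 - ε| * (V / c1) := by
        have h5 : ((k : ℝ) + 1 - ε) * Real.log (B.card : ℝ) ≤
            |(k : ℝ) + 1 - ε| * Real.log (B.card : ℝ) :=
          mul_le_mul_of_nonneg_right (le_abs_self _) hL
        exact h5.trans (mul_le_mul_of_nonneg_left h1 (abs_nonneg _))
      rw [Real.log_one]
      rw [← hD] at h4
      linarith
    exact h2.trans (one_le_mul_of_one_le_of_one_le hsk1 hpk1)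

end Pool.Agent.Helper82.EB
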